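import Mathlib
import Pool.Agent.MP_ff2ec0_pr.Final

namespace Pool.Agent.Results.MP_ff2ec0_pr.Rooted

open Pool.Agent.MP_ff2ec0_pr Filter Topology

/-- Q1: in the rooted unlabelled setting a sequence of tests with vanishing risk exists exactly
when `q₀ = 0`. -/
theorem result (q₀ q₁ : ℝ) (h0 : 0 ≤ q₀) (h01 : q₀ < q₁) (h1 : q₁ ≤ 1 / 2) :
    (∃ φ : ∀ n : ℕ, SimpleGraph (Fin n × Bool) → Bool, (∀ n, RootedInvariant (φ n)) ∧
      Tendsto (fun n => risk q₀ q₁ n (φ n)) atTop (𝓝 0)) ↔ q₀ = 0 := by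
  constructor
  · rintro ⟨φ, hφ, hT⟩
    by_contra hne
    exact not_consistent (lt_of_le_of_ne h0 (Ne.symm hne)) h01 h1 φ hφ hT
  · rintro rfl
    obtain ⟨φ, hφ, hT⟩ := consistent_zero h01 h1
    exact ⟨φ, fun n G G' f _ => hφ n G G' ⟨f⟩, hT⟩

end Pool.Agent.Results.MP_ff2ec0_pr.Rooted
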